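import Pool.Agent.helper21.OD.SpecB

/-!
# Project OD, row WDM: the dimension bound
-/

set_option autoImplicit false

namespace Pool.Agent.OD

open MvPolynomial Matrix

theorem WDM_notdvd (t : ℤ) (l : ℕ) (x y : ℤ) (h : ((l : ℕ) : Oz t) ∣ (⟨x, y⟩ : Oz t)) :
    (l : ℤ) ∣ x ∧ (l : ℤ) ∣ y := by
  obtain ⟨c, hc⟩ := h
  have h1 := congrArg QuadraticAlgebra.re hc
  have h2 := congrArg QuadraticAlgebra.im hc
  simp at h1 h2
  exact ⟨⟨c.re, h1⟩, ⟨c.im, h2⟩⟩

theorem WDM_cast (t : ℤ) (l : ℕ) : ((l : ℕ) : Oz t) = ⟨(l : ℤ), 0⟩ := by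
  ext <;> simp

theorem WDM_three (h : Prime ((3 : ℕ) : Oz 1)) : False := by
  have e : ((3 : ℕ) : Oz 1) = (⟨1, 1⟩ : Oz 1) * ⟨2, -1⟩ := by
    rw [WDM_cast]
    ext <;> simp
  rcases h.dvd_or_dvd (dvd_of_eq e) with h1 | h1
  · have := (WDM_notdvd 1 3 1 1 h1).1
    norm_num at this
  · have := (WDM_notdvd 1 3 2 (-1) h1).2
    norm_num at this

theorem WDM_four (t : ℤ) (ht : t = 0 ∨ t = 1) (h : Prime ((409 : ℕ) : Oz t)) : False := by
  rcases ht with rfl | rfl
  · have e : ((409 : ℕ) : Oz 0) = (⟨20, 3⟩ : Oz 0) * ⟨20, -3⟩ := by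
      rw [WDM_cast]
      ext <;> simp
    rcases h.dvd_or_dvd (dvd_of_eq e) with h1 | h1
    · have := (WDM_notdvd 0 409 20 3 h1).1
      norm_num at this
    · have := (WDM_notdvd 0 409 20 (-3) h1).1
      norm_num at this
  · have e : ((409 : ℕ) : Oz 1) = (⟨8, 15⟩ : Oz 1) * ⟨23, -15⟩ := by
      rw [WDM_cast]
      ext <;> simp
    rcases h.dvd_or_dvd (dvd_of_eq e) with h1 | h1
    · have := (WDM_notdvd 1 409 8 15 h1).1
      norm_num at this
    · have := (WDM_notdvd 1 409 23 (-15) h1).1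
      norm_num at this

theorem WDM_ne {κ : Type} [Field κ] (l : ℕ) (hl : l.Prime) (h0 : ((l : ℕ) : κ) = 0) (q : ℕ) (hq : q.Prime)
    (hne : l ≠ q) : (q : κ) ≠ 0 := by
  intro h
  have hc : Nat.Coprime l q := (Nat.coprime_primes hl hq).2 hne
  have hb := Nat.isCoprime_iff_coprime.2 hc
  obtain ⟨a, b, hab⟩ := hb
  have : ((a * (l : ℤ) + b * (q : ℤ) : ℤ) : κ) = ((1 : ℤ) : κ) := by rw [hab]
  push_cast at this
  rw [h0, h] at this
  simp at this

/-- the functionals -/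
noncomputable def WDM_map {t : ℤ} {κ : Type} [Field κ] (π : Oz t →+* κ) (j s : ℕ)
    (F : Fin (s + 1) → ℕ → ℕ → ℤ) : Sym π j 1 (fun _ => 1) →ₗ[κ] (Fin (s + 1) → κ) where
  toFun φ := fun i => ∑ a ∈ Finset.range (j + 1), ∑ b ∈ Finset.range (j + 1),
    (F i a b : κ) * cf (φ.1 ![1, 0] ![0, 1]) j a b
  map_add' φ ψ := by
    funext i
    simp only [cf, Submodule.coe_add, Pi.add_apply, coeff_add, mul_add, Finset.sum_add_distrib]
  map_smul' c φ := by
    funext i
    simp only [cf, Submodule.coe_smul, Pi.smul_apply, coeff_smul, smul_eq_mul, RingHom.id_apply, Finset.mul_sum]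
    refine Finset.sum_congr rfl fun a _ => Finset.sum_congr rfl fun b _ => ?_
    ring

theorem WDM (hWRL : WRL_stmt) : WDM_stmt := by
  intro t ht l hl hl2 hpr κ _ π h0 j s hj hN
  obtain ⟨F, hF⟩ := hN
  have hl3 : l ≠ 409 := by
    rintro rfl
    exact WDM_four t ht hpr
  have hl4 : l ≠ 3 ∨ (if t = 0 then 4 else 6 : ℕ) = 4 := by
    rcases ht with rfl | rfl
    · right; simp
    · left
      rintro rfl
      exact WDM_three hpr
  have h2 : (2 : κ) ≠ 0 := by
    have := WDM_ne l hl h0 2 Nat.prime_two hl2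
    exact_mod_cast this
  have hc : (t = 0 ∧ (2 : κ) ≠ 0) ∨ (t = 1 ∧ (6 : κ) ≠ 0) := by
    rcases ht with rfl | rfl
    · exact Or.inl ⟨rfl, h2⟩
    · right
      refine ⟨rfl, ?_⟩
      have h3 : (3 : κ) ≠ 0 := by
        have := WDM_ne l hl h0 3 Nat.prime_three (by
          rintro rfl
          exact WDM_three hpr)
        exact_mod_cast this
      have : (6 : κ) = 2 * 3 := by norm_num
      rw [this]
      exact mul_ne_zero h2 h3
  have hinj : Function.Injective (WDM_map π j s F) := by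
    rw [← LinearMap.ker_eq_bot, LinearMap.ker_eq_bot']
    intro φ hφ
    obtain ⟨hR, hz⟩ := hWRL t π j φ.1 hc φ.2
    have := hF l hl hl2 hl3 hl4 hj h0 _ hR (fun i => by
      have := congrFun hφ i
      simpa [WDM_map] using this)
    exact Subtype.ext (hz this)
  have := LinearMap.finrank_le_finrank_of_injective hinj
  rwa [Module.finrank_fin_fun] at this

end Pool.Agent.OD
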